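import Mathlib
import Pool.Agent.Grz.Matrices
import Pool.Agent.Grz.Regressive
import Pool.Agent.Grz.Iter

/-!
# Banach's mapping theorem and the Schroeder-Bernstein theorem for bounded formulas
-/

set_option autoImplicit false

namespace Pool.Agent.Mhl

open Pool.Agent.Grz

/-- functions with bounded-formula graph and polynomial growth -/
def PolyFun (f : ℕ → ℕ) : Prop :=
  Delta0 2 (fun v => f (v 0) = v 1) ∧ ∃ c : ℕ, ∀ x, f x ≤ (x + 2) ^ c

theorem eval_le_pow (p : MvPolynomial (Fin 1) ℕ) :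
    ∃ c : ℕ, ∀ v : Fin 1 → ℕ, MvPolynomial.eval v p ≤ (v 0 + 2) ^ c := by
  induction p using MvPolynomial.induction_on with
  | C a =>
    refine ⟨a, fun v => ?_⟩
    rw [MvPolynomial.eval_C]
    exact Nat.lt_two_pow_self.le.trans (Nat.pow_le_pow_left (by omega) a)
  | add p q hp hq =>
    obtain ⟨c, hc⟩ := hp
    obtain ⟨d, hd⟩ := hq
    refine ⟨c + d + 1, fun v => ?_⟩
    rw [map_add]
    have h1 := hc v
    have h2 := hd v
    have h3 : (v 0 + 2) ^ c ≤ (v 0 + 2) ^ (c + d) := Nat.pow_le_pow_right (by omega) (by omega)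
    have h4 : (v 0 + 2) ^ d ≤ (v 0 + 2) ^ (c + d) := Nat.pow_le_pow_right (by omega) (by omega)
    calc MvPolynomial.eval v p + MvPolynomial.eval v q ≤ (v 0 + 2) ^ (c + d) * 2 := by omega
      _ ≤ (v 0 + 2) ^ (c + d) * (v 0 + 2) := Nat.mul_le_mul_left _ (by omega)
      _ = (v 0 + 2) ^ (c + d + 1) := by rw [pow_succ]
  | mul_X p i hp =>
    obtain ⟨c, hc⟩ := hp
    refine ⟨c + 1, fun v => ?_⟩
    rw [map_mul, MvPolynomial.eval_X, pow_succ]
    refine Nat.mul_le_mul (hc v) ?_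
    rw [Subsingleton.elim i 0]
    omega

theorem dfun_pow_const {n : ℕ} {f : (Fin n → ℕ) → ℕ} (hf : DFun n f) (c : ℕ) :
    DFun n (fun v => f v ^ c) := by
  induction c with
  | zero => simpa using DFun.const (n := n) 1
  | succ c ih => simpa [pow_succ] using ih.mul hf

theorem PolyFun.dfun {f : ℕ → ℕ} (h : PolyFun f) : DFun 1 (fun v => f (v 0)) := by
  obtain ⟨h1, c, hc⟩ := h
  refine DFun.ofGraph (dfun_pow_const ((DFun.proj 0).add (DFun.const 2)) c)
    (fun v => hc _) ?_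
  refine (Delta0.comp2 (P := fun x y => f x = y) h1 (DFun.proj 1) (DFun.proj 0)).of_iff ?_
  intro w
  exact eq_comm

theorem PolyFun.of_dfun {f : ℕ → ℕ} (h : DFun 1 (fun v => f (v 0))) : PolyFun f := by
  obtain ⟨p, hp⟩ := h.bound
  obtain ⟨c, hc⟩ := eval_le_pow p
  refine ⟨?_, c, fun x => (hp ![x]).trans (hc ![x])⟩
  exact Delta0.eqFun (DFun.comp1 h (DFun.proj 0)) (DFun.proj 1)

/-- an injection with bounded-formula graph and polynomial growth which does not decrease -/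
structure Inc (f : ℕ → ℕ) : Prop where
  poly : PolyFun f
  inj : Function.Injective f
  le : ∀ x, x ≤ f x

/-! ### from `Delta0 = E2Star` to Banach's theorem -/

theorem iterate_bound {F : ℕ → ℕ} (hF : ∀ a, a ≤ F a) {b : ℕ} :
    ∀ t n, F^[t] b = n → ∃ t', t' ≤ n ∧ F^[t'] b = n := by
  intro t
  induction t with
  | zero => exact fun n h => ⟨0, Nat.zero_le _, h⟩
  | succ t ih =>
    intro n h
    rw [Function.iterate_succ_apply'] at h
    obtain ⟨s, hs1, hs2⟩ := ih _ rfl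
    have h1 := hF (F^[t] b)
    rw [h] at h1
    rcases Nat.lt_or_ge (F^[t] b) n with h2 | h2
    · refine ⟨s + 1, by omega, ?_⟩
      rw [Function.iterate_succ_apply', hs2, h]
    · have : F^[t] b = n := le_antisymm h1 h2
      exact ⟨s, by omega, by rw [hs2, this]⟩

theorem cap_iterate {F : ℕ → ℕ} (hF : ∀ a, a ≤ F a) (N t a : ℕ) :
    (fun x => min (F x) (N + 1))^[t] (min a (N + 1)) = min (F^[t] a) (N + 1) := by
  induction t with
  | zero => rfl
  | succ t ih =>
    rw [Function.iterate_succ_apply', Function.iterate_succ_apply', ih]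
    rcases Nat.le_total (F^[t] a) (N + 1) with h | h
    · rw [min_eq_left h]
    · rw [min_eq_right h]
      have h1 := hF (N + 1)
      have h2 := hF (F^[t] a)
      rw [min_eq_right h1, min_eq_right (h.trans h2)]

/-- the elements of the left side in a chain which starts on the right side -/
def RStart (f g : ℕ → ℕ) (n : ℕ) : Prop :=
  ∃ t y, (∀ m, f m ≠ y) ∧ (fun a => g (f a))^[t] (g y) = n

theorem rstart_iff (f g : ℕ → ℕ) (hf : Function.Injective f) (n : ℕ) :
    RStart f g n ↔ ∃ y, (∀ m, ¬ RStart f g m → f m ≠ y) ∧ g y = n := by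
  constructor
  · rintro ⟨t, y, hy, rfl⟩
    rcases t with _ | t
    · exact ⟨y, fun m _ => hy m, rfl⟩
    · refine ⟨f ((fun a => g (f a))^[t] (g y)), ?_, by rw [Function.iterate_succ_apply']⟩
      intro m hm h
      apply hm
      rw [hf h]
      exact ⟨t, y, hy, rfl⟩
  · rintro ⟨y, hy, rfl⟩
    by_cases h : ∃ m, f m = y
    · obtain ⟨m, rfl⟩ := h
      have h1 : RStart f g m := by
        by_contra hcon
        exact hy m hcon rfl
      obtain ⟨t, y', hy', h2⟩ := h1
      refine ⟨t + 1, y', hy', ?_⟩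
      rw [Function.iterate_succ_apply', h2]
    · push Not at h
      exact ⟨0, y, h, rfl⟩

theorem DFun.min' {n : ℕ} {f g : (Fin n → ℕ) → ℕ} (hf : DFun n f) (hg : DFun n g) :
    DFun n (fun v => min (f v) (g v)) := by
  classical
  refine (DFun.ite (Delta0.leFun hf hg) hf hg).comp (h := fun i v => v i) (fun i => DFun.proj i)
    |> fun h => ?_
  have e : (fun v => min (f v) (g v)) = fun v => if f v ≤ g v then f v else g v := by
    funext v
    split_ifs with h1
    · exact min_eq_left h1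
    · exact min_eq_right (by omega)
  rw [e]
  exact h

theorem star_rstart {f g : ℕ → ℕ} (hf : Inc f) (hg : Inc g) :
    E2Star 1 (fun v => RStart f g (v 0)) := by
  have hgf : DFun 1 (fun v => g (f (v 0))) := DFun.comp1 hg.poly.dfun hf.poly.dfun
  have hle : ∀ a, a ≤ g (f a) := fun a => (hf.le a).trans (hg.le _)
  have hs : DFun 2 (fun w => min (g (f (w 0))) (w 1 + 1)) :=
    DFun.min' (DFun.comp1 (g := fun a => g (f a)) hgf (DFun.proj 0))
      ((DFun.proj 1).add (DFun.const 1))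
  have hit : E2 3 (fun u => (fun a => min (g (f a)) (u 2 + 1))^[u 0] (u 1)) :=
    E2.iter_family (n := 1) (s := fun a v => min (g (f a)) (v 0 + 1))
      (b := fun v => v 0 + 1) ((E2.proj 0).add (E2.const 1)) hs.e2 (fun a v => min_le_right _ _)
  -- the matrix
  have h1 : E2Star 1 (fun v => ∃ t, t ≤ v 0 ∧ ∃ y, y ≤ v 0 ∧ ((∀ m, m ≤ y → f m ≠ y) ∧
      (fun a => min (g (f a)) (v 0 + 1))^[t] (min (g y) (v 0 + 1)) = v 0)) := by
    refine E2Star.bex (n := 1) (b := fun v => v 0) (P := fun t v => ∃ y, y ≤ v 0 ∧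
      ((∀ m, m ≤ y → f m ≠ y) ∧
      (fun a => min (g (f a)) (v 0 + 1))^[t] (min (g y) (v 0 + 1)) = v 0)) (E2.proj 0) ?_
    refine E2Star.bex (n := 2) (b := fun v => v 1) (P := fun y v => ((∀ m, m ≤ y → f m ≠ y) ∧
      (fun a => min (g (f a)) (v 1 + 1))^[v 0] (min (g y) (v 1 + 1)) = v 1))
      (E2.proj 1) ?_
    refine E2Star.and ?_ ?_
    · refine E2Star.ball (n := 3) (b := fun v => v 0) (P := fun m v => f m ≠ v 0) (E2.proj 0) ?_
      exact (E2Star.eqFun (DFun.comp1 hf.poly.dfun (DFun.proj 0)).e2 (E2.proj _)).not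
    · refine E2Star.eqFun ?_ (E2.proj _)
      have hmin : DFun 3 (fun w : Fin 3 → ℕ => min (g (w 0)) (w 2 + 1)) :=
        DFun.min' (DFun.comp1 hg.poly.dfun (DFun.proj 0)) ((DFun.proj 2).add (DFun.const 1))
      have := hit.comp (n := 3) (hs := ![fun w => w 1, fun w => min (g (w 0)) (w 2 + 1),
        fun w => w 2]) (by
          intro i
          fin_cases i
          · exact E2.proj 1
          · exact hmin.e2
          · exact E2.proj 2)
      refine this.congr ?_
      intro w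
      rfl
  refine h1.of_iff ?_
  intro v
  set n := v 0 with hn
  constructor
  · rintro ⟨t, y, hy, ht⟩
    obtain ⟨t', ht1, ht2⟩ := iterate_bound hle t n ht
    have hb : ∀ s, g y ≤ (fun a => g (f a))^[s] (g y) := by
      intro s
      induction s with
      | zero => exact le_rfl
      | succ s ih => rw [Function.iterate_succ_apply']; exact ih.trans (hle _)
    have hyn : y ≤ n := by
      have := hb t'
      rw [ht2] at this
      exact (hg.le y).trans this
    refine ⟨t', ht1, y, hyn, fun m _ => hy m, ?_⟩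
    rw [cap_iterate (F := fun a => g (f a)) hle, ht2]
    exact min_eq_left (by omega)
  · rintro ⟨t, _, y, _, hy, ht⟩
    refine ⟨t, y, ?_, ?_⟩
    · intro m h
      exact hy m (by rw [← h]; exact hf.le m) h
    · rw [cap_iterate (F := fun a => g (f a)) hle] at ht
      rcases Nat.le_total ((fun a => g (f a))^[t] (g y)) (n + 1) with h2 | h2
      · rw [min_eq_left h2] at ht; exact ht
      · rw [min_eq_right h2] at ht; omega

/-- Banach's mapping theorem -/
def Banach : Prop := ∀ f g : ℕ → ℕ, Inc f → Inc g →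
  ∃ S : Set ℕ, Delta0 1 (fun v => v 0 ∈ S) ∧ (g '' (f '' S)ᶜ)ᶜ = S

/-- the pointwise Schroeder-Bernstein theorem -/
def SchBern : Prop := ∀ f g : ℕ → ℕ, Inc f → Inc g →
  ∃ h : ℕ → ℕ, Function.Bijective h ∧ Delta0 2 (fun v => h (v 0) = v 1) ∧
    ∀ x, h x = f x ∨ g (h x) = x

theorem banach_iff {f g : ℕ → ℕ} {S : Set ℕ} :
    (g '' (f '' S)ᶜ)ᶜ = S ↔ ∀ x, x ∉ S ↔ ∃ y, (∀ m, m ∈ S → f m ≠ y) ∧ g y = x := by
  rw [Set.ext_iff]
  constructor
  · intro h x
    rw [← h x]
    simp only [Set.mem_compl_iff, Set.mem_image, not_not]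
    constructor
    · rintro ⟨y, h1, h2⟩
      exact ⟨y, fun m hm h3 => h1 ⟨m, hm, h3⟩, h2⟩
    · rintro ⟨y, h1, h2⟩
      exact ⟨y, fun ⟨m, hm, h3⟩ => h1 m hm h3, h2⟩
  · intro h x
    rw [← not_iff_not, h x]
    simp only [Set.mem_compl_iff, Set.mem_image, not_not]
    constructor
    · rintro ⟨y, h1, h2⟩
      exact ⟨y, fun m hm h3 => h1 ⟨m, hm, h3⟩, h2⟩
    · rintro ⟨y, h1, h2⟩
      exact ⟨y, fun ⟨m, hm, h3⟩ => h1 m hm h3, h2⟩

theorem banach_of_eq (H : ∀ (k : ℕ) (R : (Fin k → ℕ) → Prop), Delta0 k R ↔ E2Star k R) :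
    Banach := by
  intro f g hf hg
  refine ⟨{n | ¬ RStart f g n}, ((H 1 _).mpr (star_rstart hf hg)).not, ?_⟩
  rw [banach_iff]
  intro x
  simp only [Set.mem_ofPred_eq, not_not]
  exact rstart_iff f g hf.inj x

/-! ### consequences of Banach's theorem -/

section conseq

variable {f g : ℕ → ℕ} (hf : Inc f) (hg : Inc g) {S : Set ℕ}
  (hS : ∀ x, x ∉ S ↔ ∃ y, (∀ m, m ∈ S → f m ≠ y) ∧ g y = x)

include hf hg hS

theorem exists_inv (hSd : Delta0 1 (fun v => v 0 ∈ S)) : ∃ h k : ℕ → ℕ,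
    DFun 1 (fun v => h (v 0)) ∧ DFun 1 (fun v => k (v 0)) ∧ (∀ x, k (h x) = x) ∧
    (∀ y, h (k y) = y) ∧ ∀ x, h x = f x ∨ g (h x) = x := by
  classical
  -- the map
  have h1 : ∀ x, ∃ y, (x ∈ S → y = f x) ∧ (x ∉ S → (∀ m, m ∈ S → f m ≠ y) ∧ g y = x) := by
    intro x
    by_cases hx : x ∈ S
    · exact ⟨f x, fun _ => rfl, fun h => absurd hx h⟩
    · obtain ⟨y, h⟩ := (hS x).mp hx
      exact ⟨y, fun h' => absurd h' hx, fun _ => h⟩
  choose h hh1 hh2 using h1
  have h2 : ∀ y, ∃ x, (y ∈ f '' S → x ∈ S ∧ f x = y) ∧ (y ∉ f '' S → x = g y) := by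
    intro y
    by_cases hy : y ∈ f '' S
    · obtain ⟨x, h⟩ := hy
      exact ⟨x, fun _ => h, fun h' => absurd ⟨x, h⟩ h'⟩
    · exact ⟨g y, fun h => absurd h hy, fun _ => rfl⟩
  choose k hk1 hk2 using h2
  have hnS : ∀ y, y ∉ f '' S → g y ∉ S := fun y hy =>
    (hS (g y)).mpr ⟨y, fun m hm h => hy ⟨m, hm, h⟩, rfl⟩
  have hkh : ∀ x, k (h x) = x := by
    intro x
    by_cases hx : x ∈ S
    · rw [hh1 x hx]
      exact hf.inj (hk1 (f x) ⟨x, hx, rfl⟩).2
    · obtain ⟨h3, h4⟩ := hh2 x hx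
      rw [hk2 (h x) (by rintro ⟨m, hm, h5⟩; exact h3 m hm h5)]
      exact h4
  have hhk : ∀ y, h (k y) = y := by
    intro y
    by_cases hy : y ∈ f '' S
    · obtain ⟨h3, h4⟩ := hk1 y hy
      rw [hh1 _ h3, h4]
    · rw [hk2 y hy]
      exact hg.inj (hh2 _ (hnS y hy)).2
  have hSd' : ∀ {n : ℕ} {a : (Fin n → ℕ) → ℕ}, DFun n a → Delta0 n (fun v => a v ∈ S) :=
    fun ha => Delta0.comp1 (P := fun x => x ∈ S) hSd ha
  have hfg : ∀ x y, h x = y ↔ (x ∈ S ∧ f x = y) ∨ (x ∉ S ∧ g y = x) := by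
    intro x y
    by_cases hx : x ∈ S
    · rw [hh1 x hx]
      simp [hx]
    · constructor
      · rintro rfl
        exact Or.inr ⟨hx, (hh2 x hx).2⟩
      · rintro (⟨h3, _⟩ | ⟨_, h3⟩)
        · exact absurd h3 hx
        · exact hg.inj ((hh2 x hx).2.trans h3.symm)
  have hgraph : ∀ {n : ℕ} {a b : (Fin n → ℕ) → ℕ}, DFun n a → DFun n b →
      Delta0 n (fun v => h (a v) = b v) := by
    intro n a b ha hb
    refine (((hSd' ha).and (Delta0.eqFun (DFun.comp1 hf.poly.dfun ha) hb)).or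
      ((hSd' ha).not.and (Delta0.eqFun (DFun.comp1 hg.poly.dfun hb) ha))).of_iff ?_
    intro v
    exact hfg _ _
  have hhle : ∀ x, h x ≤ f x + x := by
    intro x
    rcases (hfg x (h x)).mp rfl with ⟨_, h3⟩ | ⟨_, h3⟩
    · omega
    · have := hg.le (h x)
      omega
  have hkle : ∀ y, k y ≤ g y + y := by
    intro y
    by_cases hy : y ∈ f '' S
    · have h3 := (hk1 y hy).2
      have := hf.le (k y)
      omega
    · rw [hk2 y hy]; omega
  refine ⟨h, k, ?_, ?_, hkh, hhk, ?_⟩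
  · refine DFun.ofGraph (hf.poly.dfun.add (DFun.proj 0)) (fun v => hhle _) ?_
    refine (hgraph (DFun.proj 1) (DFun.proj 0)).of_iff ?_
    intro w
    exact eq_comm
  · refine DFun.ofGraph (hg.poly.dfun.add (DFun.proj 0)) (fun v => hkle _) ?_
    refine (hgraph (DFun.proj 0) (DFun.proj 1)).of_iff ?_
    intro w
    constructor
    · intro h3
      rw [h3]
      exact hhk _
    · intro h3
      have := hkh (w 0)
      rw [h3] at this
      exact this.symm
  · intro x
    rcases (hfg x (h x)).mp rfl with ⟨_, h3⟩ | ⟨_, h3⟩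
    · exact Or.inl h3.symm
    · exact Or.inr h3

end conseq

theorem schBern_of_banach (H : Banach) : SchBern := by
  intro f g hf hg
  obtain ⟨S, hS, hb⟩ := H f g hf hg
  obtain ⟨h, k, hh, _, h1, h2, h3⟩ := exists_inv hf hg (banach_iff.mp hb) hS
  exact ⟨h, ⟨Function.LeftInverse.injective h1, Function.RightInverse.surjective h2⟩,
    (PolyFun.of_dfun hh).1, h3⟩

theorem banach_of_schBern (H : SchBern) : Banach := by
  intro f g hf hg
  obtain ⟨h, hb, hh, h3⟩ := H f g hf hg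
  refine ⟨{x | h x = f x}, ?_, ?_⟩
  · exact Delta0.comp2 (P := fun x y => h x = y) hh (DFun.proj 0)
      (DFun.comp1 hf.poly.dfun (DFun.proj 0))
  · rw [banach_iff]
    intro x
    simp only [Set.mem_ofPred_eq]
    constructor
    · intro hx
      refine ⟨h x, fun m hm h4 => ?_, (h3 x).resolve_left hx⟩
      rw [← hm] at h4
      have := hb.injective h4
      rw [this] at hm
      exact hx hm
    · rintro ⟨y, h4, rfl⟩ h5
      obtain ⟨m, rfl⟩ := hb.surjective y
      by_cases hm : h m = f m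
      · exact h4 m hm hm.symm
      · have h6 := (h3 m).resolve_left hm
        rw [h6] at h5
        exact hm h5

/-- Myhill's theorem for nondecreasing reductions -/
def MyhillInc : Prop := ∀ (A B : Set ℕ) (f g : ℕ → ℕ), Inc f → Inc g →
  (∀ x, x ∈ A ↔ f x ∈ B) → (∀ y, y ∈ B ↔ g y ∈ A) →
  ∃ h k : ℕ → ℕ, PolyFun h ∧ PolyFun k ∧ (∀ x, k (h x) = x) ∧ (∀ y, h (k y) = y) ∧
    ∀ x, x ∈ A ↔ h x ∈ B

theorem myhillInc_of_banach (H : Banach) : MyhillInc := by
  intro A B f g hf hg hA hB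
  obtain ⟨S, hS, hb⟩ := H f g hf hg
  obtain ⟨h, k, hh, hk, h1, h2, h3⟩ := exists_inv hf hg (banach_iff.mp hb) hS
  refine ⟨h, k, PolyFun.of_dfun hh, PolyFun.of_dfun hk, h1, h2, fun x => ?_⟩
  rcases h3 x with h4 | h4
  · rw [h4]; exact hA x
  · rw [hB (h x), h4]

end Pool.Agent.Mhl
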